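import Pool.Agent.H24.PN.Stmts
import Pool.Agent.H31.PM.Tools
import Pool.Agent.H24.PM.CONT

/-! Module OUA of project PN. -/

namespace PN
open MeasureTheory Complex ProbabilityTheory PM PM.T31

theorem oua_tsum_rpow {ι : Type*} (a : ι → ENNReal) {q : ℝ} (hq0 : 0 < q) (hq1 : q ≤ 1) :
    (∑' i, a i) ^ q ≤ ∑' i, a i ^ q := by
  classical
  have hfin : ∀ s : Finset ι, (∑ i ∈ s, a i) ^ q ≤ ∑ i ∈ s, a i ^ q := by
    intro s
    induction s using Finset.induction_on with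
    | empty => simp [ENNReal.zero_rpow_of_pos hq0]
    | insert i s hi ih =>
      rw [Finset.sum_insert hi, Finset.sum_insert hi]
      exact (ENNReal.rpow_add_le_add_rpow _ _ hq0.le hq1).trans (by gcongr)
  have h1 : ∑' i, a i ≤ (∑' i, a i ^ q) ^ (1 / q) := by
    rw [ENNReal.tsum_eq_iSup_sum]
    apply iSup_le
    intro s
    have h2 : (∑ i ∈ s, a i) ^ q ≤ ∑' i, a i ^ q :=
      (hfin s).trans (ENNReal.sum_le_tsum s)
    rw [one_div, ENNReal.le_rpow_inv_iff hq0]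
    exact h2
  calc (∑' i, a i) ^ q ≤ ((∑' i, a i ^ q) ^ (1 / q)) ^ q :=
        ENNReal.rpow_le_rpow h1 hq0.le
    _ = ∑' i, a i ^ q := by
        rw [← ENNReal.rpow_mul, one_div, inv_mul_cancel₀ hq0.ne', ENNReal.rpow_one]

/-- left end points of the blocks -/
noncomputable def oua_a (h : ℝ) (i : Bool × ℕ) : ℝ :=
  if i.1 then 1 + i.2 * h else -1 - (i.2 + 1) * h

theorem oua_cover {h : ℝ} (hh : 0 < h) :
    {t : ℝ | 1 < |t|} ⊆ ⋃ i : Bool × ℕ, Set.Ioc (oua_a h i) (oua_a h i + h) := by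
  intro t ht
  have ht1 : 1 < |t| := ht
  rw [Set.mem_iUnion]
  rcases lt_or_ge 0 t with h0 | h0
  · rw [abs_of_pos h0] at ht1
    have h1 : 0 < (t - 1) / h := div_pos (by linarith) hh
    obtain ⟨k, hk⟩ : ∃ k : ℕ, ⌈(t - 1) / h⌉₊ = k + 1 := by
      have : 0 < ⌈(t - 1) / h⌉₊ := Nat.ceil_pos.2 h1
      exact ⟨_, (Nat.succ_pred_eq_of_pos this).symm⟩
    refine ⟨(true, k), ?_⟩
    have h2 : (t - 1) / h ≤ (k : ℝ) + 1 := by
      have := Nat.le_ceil ((t - 1) / h)
      rw [hk] at this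
      push_cast at this
      exact this
    have h3 : (k : ℝ) < (t - 1) / h := by
      have := Nat.lt_ceil (n := k) (a := (t - 1) / h)
      rw [hk] at this
      exact this.1 (by omega)
    rw [div_le_iff₀ hh] at h2
    rw [lt_div_iff₀ hh] at h3
    simp only [oua_a, if_true, Set.mem_Ioc]
    constructor
    · linarith
    · linarith
  · rw [abs_of_nonpos h0] at ht1
    have h1 : 0 ≤ (-t - 1) / h := div_nonneg (by linarith) hh.le
    refine ⟨(false, ⌊(-t - 1) / h⌋₊), ?_⟩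
    have h2 : ((⌊(-t - 1) / h⌋₊ : ℕ) : ℝ) ≤ (-t - 1) / h := Nat.floor_le h1
    have h3 : (-t - 1) / h < (⌊(-t - 1) / h⌋₊ : ℝ) + 1 := Nat.lt_floor_add_one _
    rw [le_div_iff₀ hh] at h2
    rw [div_lt_iff₀ hh] at h3
    simp only [oua_a, Set.mem_Ioc]
    simp only [Bool.false_eq_true, if_false]
    constructor
    · linarith
    · linarith

theorem oua_abs {h : ℝ} (i : Bool × ℕ) {t : ℝ}
    (ht : t ∈ Set.Ioc (oua_a h i) (oua_a h i + h)) : 1 + i.2 * h ≤ |t| := by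
  obtain ⟨s, j⟩ := i
  cases s
  · simp only [oua_a, Bool.false_eq_true, if_false, Set.mem_Ioc] at ht ⊢
    have : 1 + (j : ℝ) * h ≤ -t := by linarith [ht.2]
    exact this.trans (neg_le_abs t)
  · simp only [oua_a, if_true, Set.mem_Ioc] at ht ⊢
    exact ht.1.le.trans (le_abs_self t)


theorem oua_summable {q : ℝ} (hq : 1 / 2 < q) {ℓ : ℝ} (hℓ : 0 ≤ ℓ) :
    Summable (fun i : Bool × ℕ => (ℓ * (((i.2 : ℝ) + 1) ^ 2)⁻¹) ^ q) := by
  have h0 : ∀ j : ℕ, (ℓ * (((j : ℝ) + 1) ^ 2)⁻¹) ^ q = ℓ ^ q * ((j : ℝ) + 1) ^ (-(2 * q)) := by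
    intro j
    rw [Real.mul_rpow hℓ (by positivity), Real.inv_rpow (by positivity), ← Real.rpow_two,
      ← Real.rpow_mul (by positivity), Real.rpow_neg (by positivity)]
  have h1 : Summable (fun j : ℕ => (ℓ * (((j : ℝ) + 1) ^ 2)⁻¹) ^ q) := by
    have h2 : Summable (fun j : ℕ => ((j:ℝ)) ^ (-(2 * q))) := by
      rw [Real.summable_nat_rpow]
      linarith
    have h3 := (summable_nat_add_iff 1).2 h2
    refine (h3.mul_left (ℓ ^ q)).congr fun j => ?_
    rw [h0 j]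
    push_cast
    rfl
  rw [summable_prod_of_nonneg (fun i => by positivity)]
  exact ⟨fun _ => h1, (hasSum_fintype _).summable⟩

theorem OUA (hPUB : S_PUB) (hMOT : S_MOT) (hJM : S_JM) (hCONT : S_CONT) : S_OUA := by
  intro γ p hp0 hp1 hα1 hα2 p0 hg
  set α := al γ with hα
  have hα0 : 0 < α := by linarith
  set q' : ℝ := (1 / 2 + 1 / α) / 2 with hq'
  have hinv : 1 / 2 < 1 / α := by
    rw [div_lt_div_iff₀ (by norm_num) hα0]
    linarith
  have hq1 : 1 / 2 < q' := by rw [hq']; linarith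
  have hq2 : q' < 1 / α := by rw [hq']; linarith
  have hq3 : α * q' < 1 := by
    rw [lt_div_iff₀ hα0] at hq2
    linarith
  have hq0 : 0 < q' := by linarith
  have hqle : q' ≤ 1 := by nlinarith
  obtain ⟨C1, c1, hC1, hc1, hP⟩ := hPUB γ p0 hg hα1
  obtain ⟨C2, hC2, hM⟩ := hMOT 2 (2 * α) q' C1 c1 (by norm_num) (by positivity) hq0 hC1 hc1
    (by nlinarith)
  have hp0' : 4 * Real.exp 16 ≤ (p0 : ℝ) := hg.1
  have he16 := Real.exp_pos 16
  have hp00 : 0 < (p0 : ℝ) := by linarith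
  have hlp : 16 < Real.log p0 := by
    rw [Real.lt_log_iff_exp_lt hp00]
    linarith
  set ℓ := Real.log (p0 : ℝ) with hℓ
  have hℓ0 : 0 < ℓ := by linarith
  have ha1 : 1 < Real.log ℓ := by
    rw [Real.lt_log_iff_exp_lt hℓ0]
    have := Real.exp_one_lt_d9
    linarith
  set a := Real.log ℓ with ha
  have hsum := oua_summable hq1 hℓ0.le
  set S := ∑' i : Bool × ℕ, (ℓ * (((i.2 : ℝ) + 1) ^ 2)⁻¹) ^ q' with hS
  have hS0 : 0 < S := by
    have h1 := hsum.sum_le_tsum {((true, 0) : Bool × ℕ)} (fun j _ => by positivity)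
    rw [Finset.sum_singleton] at h1
    refine lt_of_lt_of_le ?_ h1
    positivity
  refine ⟨(C2 * S) ^ ((p / 2) / q') * (a ^ (3 * α / 2)) ^ (p / 2), by positivity, ?_⟩
  intro y σ hy hσ1 hσ
  have hy0 : 0 < y := by linarith
  have hlpy : ℓ ≤ Real.log y := Real.log_le_log hp00 (by linarith)
  set Y := Real.log y with hY
  have hYpos : 0 < Y := by linarith
  have hσ0 : σ ≠ 0 := by
    rintro rfl
    simp at hσ1
    linarith
  have hsmall : |σ| < 1 / 2 := by
    by_contra hc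
    push Not at hc
    nlinarith
  have hprime : ∀ l ∈ PrS p0 y, l.Prime := fun l hl => (mem_prs hl hy0.le).1
  have hFc := F_cont hCONT γ (PrS p0 y) hprime (σ := σ) (by linarith [(abs_lt.1 hsmall).1])
  have hd : ∀ t : ℝ, 0 < σ ^ 2 + t ^ 2 := fun t => by positivity
  obtain ⟨-, ⟨B, hB⟩, hJi, -⟩ := hJM γ (PrS p0 y) σ hprime (by linarith [(abs_lt.1 hsmall).1]) hσ0
  have hcA : Continuous (fun q : Om × ℝ => ‖F γ (PrS p0 y) σ q.2 q.1‖ ^ 2 / (σ ^ 2 + q.2 ^ 2)) :=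
    (hFc.norm.pow 2).div (by fun_prop) (fun q => (hd q.2).ne')
  have hcB : Continuous (fun q : Om × ℝ => ‖F γ (PrS p0 y) σ q.2 q.1‖ ^ 2) := hFc.norm.pow 2
  let Jf : Om → ℝ := fun ω => ∫ t in {t : ℝ | 1 < |t|}, ‖F γ (PrS p0 y) σ t ω‖ ^ 2 / (σ ^ 2 + t ^ 2)
  let Z : Bool × ℕ → Om → ℝ := fun i ω => ℓ * ∫ t in Set.Ioc (oua_a (1 / ℓ) i)
    (oua_a (1 / ℓ) i + 1 / ℓ), ‖F γ (PrS p0 y) σ t ω‖ ^ 2
  have hJm : Measurable Jf := by
    have h1 : StronglyMeasurable (Function.uncurry (fun (ω : Om) (t : ℝ) =>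
        ‖F γ (PrS p0 y) σ t ω‖ ^ 2 / (σ ^ 2 + t ^ 2))) := hcA.stronglyMeasurable
    exact (h1.integral_prod_right (ν := volume.restrict {t : ℝ | 1 < |t|})).measurable
  have hZm : ∀ i, Measurable (Z i) := by
    intro i
    have h1 : StronglyMeasurable (Function.uncurry (fun (ω : Om) (t : ℝ) =>
        ‖F γ (PrS p0 y) σ t ω‖ ^ 2)) := hcB.stronglyMeasurable
    exact ((h1.integral_prod_right (ν := volume.restrict (Set.Ioc (oua_a (1 / ℓ) i)
      (oua_a (1 / ℓ) i + 1 / ℓ)))).measurable).const_mul _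
  have hZ0 : ∀ i ω, 0 ≤ Z i ω := fun i ω =>
    mul_nonneg hℓ0.le (integral_nonneg fun t => by positivity)
  have hJ0 : ∀ ω, 0 ≤ Jf ω := fun ω => integral_nonneg fun t => by
    have := hd t
    positivity
  have hJB : ∀ ω, Jf ω ≤ B := by
    intro ω
    refine le_trans ?_ (hB ω).2
    unfold JF
    apply setIntegral_le_integral (hJi ω)
    filter_upwards with t
    have := hd t
    positivity
  -- parameters
  have hYl : 1 ≤ Y / ℓ := by rw [one_le_div hℓ0]; exact hlpy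
  have hlogYl : 0 ≤ Real.log (Y / ℓ) := Real.log_nonneg hYl
  set n : ℝ := 1 + Real.log (Y / ℓ) with hn
  have hn1 : 1 ≤ n := by linarith
  set T : ℝ := Real.exp ((2 * α - 1) * Real.log (Y / ℓ)) * n ^ (-(3 * α / 2)) with hT
  have hT0 : 0 < T := by positivity
  -- moments of blocks
  have hZE : ∀ i, ∫⁻ ω, ENNReal.ofReal (Z i ω ^ q') ∂P ≤ ENNReal.ofReal (C2 * T ^ q') := by
    intro i
    have h1 := hM Om P (Z i) T n (hZm i) (hZ0 i) hT0 hn1 (fun x hx => ?_)
    · have h2 : ¬ (2 * α * q' = 2) := by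
        intro h
        nlinarith
      rw [if_neg h2, mul_one] at h1
      exact h1
    · have h2 := hP p0 y σ (oua_a (1 / ℓ) i) x le_rfl (by linarith) (by linarith) hx
      exact h2
  -- pointwise
  have hpt : ∀ ω, ENNReal.ofReal (Jf ω ^ q') ≤
      ∑' i : Bool × ℕ, ENNReal.ofReal ((ℓ * (((i.2 : ℝ) + 1) ^ 2)⁻¹) ^ q') *
        ENNReal.ofReal (Z i ω ^ q') := by
    intro ω
    have hh0 : 0 < 1 / ℓ := by positivity
    have h1 : ENNReal.ofReal (Jf ω) = ∫⁻ t in {t : ℝ | 1 < |t|},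
        ENNReal.ofReal (‖F γ (PrS p0 y) σ t ω‖ ^ 2 / (σ ^ 2 + t ^ 2)) := by
      apply ofReal_integral_eq_lintegral_ofReal (hJi ω).integrableOn
      filter_upwards with t
      have := hd t
      positivity
    have k0 : Continuous (fun t : ℝ => ((ω, t) : Om × ℝ)) := by fun_prop
    have hgA : Continuous (fun t => ‖F γ (PrS p0 y) σ t ω‖ ^ 2) := (hFc.comp k0).norm.pow 2
    have h2 : ∀ i : Bool × ℕ, ∫⁻ t in Set.Ioc (oua_a (1 / ℓ) i) (oua_a (1 / ℓ) i + 1 / ℓ),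
        ENNReal.ofReal (‖F γ (PrS p0 y) σ t ω‖ ^ 2 / (σ ^ 2 + t ^ 2)) ≤
        ENNReal.ofReal (ℓ * (((i.2 : ℝ) + 1) ^ 2)⁻¹ * Z i ω) := by
      intro i
      have h3 : ∫⁻ t in Set.Ioc (oua_a (1 / ℓ) i) (oua_a (1 / ℓ) i + 1 / ℓ),
          ENNReal.ofReal (‖F γ (PrS p0 y) σ t ω‖ ^ 2 / (σ ^ 2 + t ^ 2)) ≤
          ∫⁻ t in Set.Ioc (oua_a (1 / ℓ) i) (oua_a (1 / ℓ) i + 1 / ℓ),
            ENNReal.ofReal ((ℓ ^ 2 * (((i.2 : ℝ) + 1) ^ 2)⁻¹) * ‖F γ (PrS p0 y) σ t ω‖ ^ 2) := by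
        apply setLIntegral_mono_ae
        · exact (hgA.measurable.const_mul _).ennreal_ofReal.aemeasurable
        · filter_upwards with t ht
          apply ENNReal.ofReal_le_ofReal
          rw [div_eq_inv_mul]
          apply mul_le_mul_of_nonneg_right _ (by positivity)
          have h4 := oua_abs (h := 1 / ℓ) i ht
          have h5 : ((i.2 : ℝ) + 1) / ℓ ≤ |t| := by
            refine le_trans ?_ h4
            rw [div_le_iff₀ hℓ0]
            have : (1 + (i.2 : ℝ) * (1 / ℓ)) * ℓ = ℓ + i.2 := by field_simp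
            rw [this]
            linarith
          have h6 : (((i.2 : ℝ) + 1) / ℓ) ^ 2 ≤ t ^ 2 := by
            rw [← sq_abs t]
            exact pow_le_pow_left₀ (by positivity) h5 2
          have h7 : ℓ ^ 2 * (((i.2 : ℝ) + 1) ^ 2)⁻¹ = ((((i.2 : ℝ) + 1) / ℓ) ^ 2)⁻¹ := by
            rw [div_pow, inv_div, div_eq_mul_inv]
          rw [h7]
          apply inv_anti₀ (by positivity)
          nlinarith [sq_nonneg σ]
      refine h3.trans (le_of_eq ?_)
      rw [← ofReal_integral_eq_lintegral_ofReal]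
      · congr 1
        rw [integral_const_mul]
        simp only [Z]
        ring
      · exact ((continuous_const.mul hgA).integrableOn_Icc).mono_set Set.Ioc_subset_Icc_self
      · filter_upwards with t
        positivity
    have h8 : ENNReal.ofReal (Jf ω) ≤ ∑' i : Bool × ℕ,
        ENNReal.ofReal (ℓ * (((i.2 : ℝ) + 1) ^ 2)⁻¹ * Z i ω) := by
      rw [h1]
      refine (lintegral_mono_set (oua_cover hh0)).trans ?_
      refine (lintegral_iUnion_le _ _).trans ?_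
      exact ENNReal.tsum_le_tsum h2
    rw [← ENNReal.ofReal_rpow_of_nonneg (hJ0 ω) hq0.le]
    refine (ENNReal.rpow_le_rpow h8 hq0.le).trans ?_
    refine (oua_tsum_rpow _ hq0 hqle).trans ?_
    apply ENNReal.tsum_le_tsum
    intro i
    rw [ENNReal.ofReal_rpow_of_nonneg (mul_nonneg (by positivity) (hZ0 i ω)) hq0.le,
      Real.mul_rpow (by positivity) (hZ0 i ω), ENNReal.ofReal_mul (by positivity)]
  have hEJ : ∫⁻ ω, ENNReal.ofReal (Jf ω ^ q') ∂P ≤ ENNReal.ofReal (S * (C2 * T ^ q')) := by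
    refine (lintegral_mono hpt).trans ?_
    rw [lintegral_tsum (fun i => (((hZm i).pow_const _).ennreal_ofReal.const_mul _).aemeasurable)]
    have h1 : ∀ i : Bool × ℕ, ∫⁻ ω, ENNReal.ofReal ((ℓ * (((i.2 : ℝ) + 1) ^ 2)⁻¹) ^ q') *
        ENNReal.ofReal (Z i ω ^ q') ∂P ≤
        ENNReal.ofReal ((ℓ * (((i.2 : ℝ) + 1) ^ 2)⁻¹) ^ q') * ENNReal.ofReal (C2 * T ^ q') := by
      intro i
      rw [lintegral_const_mul _ ((hZm i).pow_const _).ennreal_ofReal]
      exact mul_le_mul_right (hZE i) _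
    refine (ENNReal.tsum_le_tsum h1).trans ?_
    rw [ENNReal.tsum_mul_right, ENNReal.ofReal_mul hS0.le,
      ENNReal.ofReal_tsum_of_nonneg (fun i => by positivity) hsum]
  have hEJ2 : ∫ ω, Jf ω ^ q' ∂P ≤ S * (C2 * T ^ q') := by
    rw [integral_eq_lintegral_of_nonneg_ae
      (Filter.Eventually.of_forall fun ω => Real.rpow_nonneg (hJ0 ω) _)
      (hJm.pow_const _).aestronglyMeasurable]
    apply ENNReal.toReal_le_of_le_ofReal (by positivity) hEJ
  -- conclusion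
  have hjen := jensen (f := fun ω => (Jf ω / Y) ^ q') ((hJm.div_const Y).pow_const q')
    (B := (B / Y) ^ q') (fun ω => Real.rpow_nonneg (div_nonneg (hJ0 ω) hYpos.le) _)
    (fun ω => Real.rpow_le_rpow (div_nonneg (hJ0 ω) hYpos.le)
      (div_le_div_of_nonneg_right (hJB ω) hYpos.le) hq0.le) (r := (p / 2) / q') (by positivity)
    (by rw [div_le_one hq0]; linarith)
  have he : ∀ ω, ((Jf ω / Y) ^ q') ^ ((p / 2) / q') = (Jf ω / Y) ^ (p / 2) := by
    intro ω
    rw [← Real.rpow_mul (div_nonneg (hJ0 ω) hYpos.le), mul_div_cancel₀ _ hq0.ne']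
  simp only [he] at hjen
  refine hjen.trans ?_
  have h5 : ∫ ω, (Jf ω / Y) ^ q' ∂P ≤ (C2 * S) * (T / Y) ^ q' := by
    have h6 : ∀ ω, (Jf ω / Y) ^ q' = Jf ω ^ q' / Y ^ q' := fun ω =>
      Real.div_rpow (hJ0 ω) hYpos.le _
    simp only [h6]
    rw [integral_div, Real.div_rpow hT0.le hYpos.le, div_le_iff₀ (by positivity)]
    calc ∫ ω, Jf ω ^ q' ∂P ≤ S * (C2 * T ^ q') := hEJ2
      _ = C2 * S * (T ^ q' / Y ^ q') * Y ^ q' := by
        have : Y ^ q' ≠ 0 := (Real.rpow_pos_of_pos hYpos _).ne'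
        field_simp
  have h7 : (∫ ω, (Jf ω / Y) ^ q' ∂P) ^ ((p / 2) / q') ≤
      (C2 * S) ^ ((p / 2) / q') * (T / Y) ^ (p / 2) := by
    refine (Real.rpow_le_rpow (integral_nonneg fun ω => Real.rpow_nonneg
      (div_nonneg (hJ0 ω) hYpos.le) _) h5 (by positivity)).trans (le_of_eq ?_)
    rw [Real.mul_rpow (by positivity) (by positivity), ← Real.rpow_mul (by positivity),
      mul_div_cancel₀ _ hq0.ne']
  refine h7.trans ?_
  rw [mul_assoc, mul_assoc]
  apply mul_le_mul_of_nonneg_left _ (by positivity)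
  -- size of T
  have hLL : a ≤ Real.log Y := Real.log_le_log hℓ0 hlpy
  have hLL0 : 0 < Real.log Y := by linarith
  have hnL : Real.log Y / a ≤ n := by
    rw [hn, Real.log_div hYpos.ne' hℓ0.ne', ← ha, div_le_iff₀ (by linarith)]
    nlinarith
  have h8 : n ^ (-(3 * α / 2)) ≤ a ^ (3 * α / 2) * (Real.log Y) ^ (-(3 * α / 2)) := by
    have h9 : n ^ (-(3 * α / 2)) ≤ (Real.log Y / a) ^ (-(3 * α / 2)) :=
      Real.rpow_le_rpow_of_nonpos (by positivity) hnL (by linarith)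
    refine h9.trans (le_of_eq ?_)
    rw [Real.div_rpow hLL0.le (by linarith), Real.rpow_neg (by linarith : (0:ℝ) ≤ a),
      div_inv_eq_mul, mul_comm]
  have h10 : T / Y ≤ a ^ (3 * α / 2) * (Y ^ (2 * (α - 1)) * (Real.log Y) ^ (-(3 * α / 2))) := by
    have h11 : Real.exp ((2 * α - 1) * Real.log (Y / ℓ)) ≤ Y ^ (2 * α - 1) := by
      rw [mul_comm, ← Real.rpow_def_of_pos (by positivity)]
      apply Real.rpow_le_rpow (by positivity) _ (by linarith)
      rw [div_le_iff₀ hℓ0]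
      nlinarith
    have h12 : Y ^ (2 * α - 1) / Y = Y ^ (2 * (α - 1)) := by
      rw [← Real.rpow_sub_one hYpos.ne']
      congr 1
      ring
    calc T / Y ≤ (Y ^ (2 * α - 1) * (a ^ (3 * α / 2) * (Real.log Y) ^ (-(3 * α / 2)))) / Y := by
          apply div_le_div_of_nonneg_right _ hYpos.le
          exact mul_le_mul h11 h8 (by positivity) (by positivity)
      _ = (Y ^ (2 * α - 1) / Y) * (a ^ (3 * α / 2) * (Real.log Y) ^ (-(3 * α / 2))) := by ring
      _ = _ := by rw [h12]; ring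
  have h13 := Real.rpow_le_rpow (by positivity) h10 (by positivity : (0:ℝ) ≤ p / 2)
  refine h13.trans (le_of_eq ?_)
  rw [Real.mul_rpow (by positivity) (by positivity), Real.mul_rpow (by positivity) (by positivity),
    ← Real.rpow_mul hYpos.le, ← Real.rpow_mul hLL0.le]
  congr 3
  · ring
  · ring

end PN
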