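import Pool.Agent.H14.PN.K
import Pool.Agent.H41.NF.Bad
import Pool.Agent.H41.PRK.S5

/-!
# PRN: the first moment over number fields (definitions and statements)

Elliptic curves, `g = 1`.  `y` is the pattern of the types at the primes of `T`; `odd T y` (PRK) is the
set of the primes where the class is ramified; `δ` is the twisting element: it has order one at these
primes and order zero at the other primes of `T`.
-/

set_option autoImplicit false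

namespace Pool.PRN

open Polynomial Matrix Pool.HYP Pool.TOW Pool.AVS Pool.T1 Pool.NF IsDedekindDomain NumberField

section Defs

variable {K : Type} [Field K] [NumberField K]

/-- The product of the norms of the odd primes. -/
noncomputable def mN (T : Finset (HeightOneSpectrum (𝓞 K))) (y : HeightOneSpectrum (𝓞 K) → Ty) : ℕ :=
  ∏ P ∈ PRK.odd T y, Nm P

/-- The conditions on the twisting element at the primes of `T`. -/
def OrdT (T : Finset (HeightOneSpectrum (𝓞 K))) (y : HeightOneSpectrum (𝓞 K) → Ty)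
    (δ : 𝓞 K) : Prop :=
  δ ≠ 0 ∧ (∀ P ∈ PRK.odd T y, δ ∈ P.asIdeal ∧ δ ∉ P.asIdeal ^ 2) ∧
    ∀ P ∈ T, P ∉ PRK.odd T y → δ ∉ P.asIdeal

/-- The pairs of symmetric matrices with the bounds given by `C`, `x`, `d`, and with the local
conditions given by the pattern `y`. -/
def PPr (C x : ℝ) (D : TDat K) (y : HeightOneSpectrum (𝓞 K) → Ty) (δ : 𝓞 K) (d : Fin 3 → ℝ) :
    Set (Matrix (Fin 3) (Fin 3) (𝓞 K) × Matrix (Fin 3) (Fin 3) (𝓞 K)) :=
  {p | p.1ᵀ = p.1 ∧ p.2ᵀ = p.2 ∧ (∀ i j, p.1 i j ∈ Bx K (C * Real.exp (d i + d j))) ∧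
    (∀ i j, p.2 i j ∈ Bx K (C * x * Real.exp (d i + d j))) ∧
    ∀ P ∈ D.T, PRK.LocS 1 P.asIdeal δ (D.c P) (D.γ P)
      ((Polynomial.X - Polynomial.C (D.c P)) * D.γ P) (y P) p.1 p.2}

/-- The pairs of `f`. -/
def PMr (C x : ℝ) (D : TDat K) (y : HeightOneSpectrum (𝓞 K) → Ty) (δ : 𝓞 K) (d : Fin 3 → ℝ)
    (f : (𝓞 K)[X]) (p : Matrix (Fin 3) (Fin 3) (𝓞 K) × Matrix (Fin 3) (Fin 3) (𝓞 K)) : Prop :=
  p ∈ PPr C x D y δ d ∧ p.1.det ≠ 0 ∧
    (pen p.1 p.2).det = Polynomial.C p.1.det * f.scaleRoots δ ∧ ¬ (p.1 0 0 = 0 ∧ p.2 0 0 = 0)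

/-- The polynomials of the set `F` which have a pair for `d`. -/
def PFr (C x : ℝ) (D : TDat K) (y : HeightOneSpectrum (𝓞 K) → Ty) (δ : 𝓞 K) (F : Set (𝓞 K)[X])
    (d : Fin 3 → ℝ) : Set (𝓞 K)[X] :=
  {f ∈ F | ∃ p, PMr C x D y δ d f p}

/-- The polynomials of the set `F` which have a pair for some `d` with `sum d ≤ C`. -/
def BFr (C x : ℝ) (D : TDat K) (y : HeightOneSpectrum (𝓞 K) → Ty) (δ : 𝓞 K)
    (F : Set (𝓞 K)[X]) : Set (𝓞 K)[X] :=
  {f ∈ F | ∃ (d : Fin 3 → ℝ) (p : _), Monotone d ∧ d 0 + d 1 + d 2 ≤ C ∧ PMr C x D y δ d f p}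

/-- RPM for `K` and `C`, with the constant `c`. -/
def RPMc (K : Type) [Field K] [NumberField K] (C c : ℝ) : Prop :=
  ∀ (D : TDat K) (y : HeightOneSpectrum (𝓞 K) → Ty) (δ : 𝓞 K)
      (d : Fin 3 → ℝ) (x : ℝ), D.Ok → OrdT D.T y δ → Adn C d → 1 ≤ x →
    ((D.N : ℝ) ^ 3 ≤ (C * x * Real.exp (2 * d 0)) ^ dg K) →
    2 ^ D.T.card * ((PPr C x D y δ d).ncard : ℝ) * (D.N : ℝ) ^ 3 * (mN D.T y : ℝ) ^ 6 ≤
      c * x ^ (6 * dg K) * Real.exp (-(3 * dg K) * d 0)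

/-- RCNT for `K` and `C`, with the constant `c`. -/
def RCNc (K : Type) [Field K] [NumberField K] (C c : ℝ) : Prop :=
  ∀ (D : TDat K) (y : HeightOneSpectrum (𝓞 K) → Ty) (δ : 𝓞 K), D.Ok →
    OrdT D.T y δ → ∃ x₀ : ℝ, ∀ x : ℝ, x₀ ≤ x → ∀ F : Set (𝓞 K)[X],
    (∀ f ∈ F, Irreducible (fk K f)) → (BFr C x D y δ F).Finite ∧
    2 ^ D.T.card * ((BFr C x D y δ F).ncard : ℝ) * (D.N : ℝ) ^ 3 * (mN D.T y : ℝ) ^ 6 ≤
      c * x ^ (6 * dg K)

end Defs

/-- NSTR: the local condition depends only on `f` modulo `P`. -/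
def NSTRStmt : Prop :=
  ∀ (R : Type) [CommRing R] (P : Ideal R) (g : ℕ) (d c : R) (γ f f' : R[X]) (y : Ty)
    (G S : Matrix (Fin (2 * g + 1)) (Fin (2 * g + 1)) R),
    P ≠ ⊤ → f.Monic → f'.Monic → f.natDegree = 2 * g + 1 → f'.natDegree = 2 * g + 1 →
    Zer P (f - f') → PRK.LocS g P d c γ f y G S → PRK.LocS g P d c γ f' y G S

/-- LINV: the local condition is invariant under integral changes of the basis. -/
def LINVStmt : Prop :=
  ∀ (R : Type) [CommRing R] (P : Ideal R), P.IsPrime → ∀ (g : ℕ) (d c : R) (γ f : R[X]) (y : Ty)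
    (G S u : Matrix (Fin (2 * g + 1)) (Fin (2 * g + 1)) R),
    IsUnit u.det → PRK.LocS g P d c γ f y G S → PRK.LocS g P d c γ f y (uᵀ * G * u) (uᵀ * S * u)

/-- RPM: the number of the pairs, large boxes.  (As NPM; the local densities are
`(1/2) q^(-3) (1 + ..)` modulo `P` for the types `(0, e)` by CTXY, and `(1/2) q^(-9) (1 + ..)` modulo
`P³` for the type `(1, 0)` by FBK and P3K: YPR of helper41.) -/
def RPMStmt : Prop :=
  ∀ (K : Type) [Field K] [NumberField K] (C : ℝ), 1 ≤ C → ∃ c : ℝ, 0 < c ∧ RPMc K C c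

/-- RCO: orbits (as NCO, with LINV; `f ↦ f.scaleRoots δ` is injective for `δ ≠ 0`, and
`f.scaleRoots δ` is irreducible over `K`). -/
def RCOStmt : Prop :=
  ∀ (K : Type) [Field K] [NumberField K] (C x : ℝ) (D : TDat K)
    (y : HeightOneSpectrum (𝓞 K) → Ty) (δ : 𝓞 K) (d : Fin 3 → ℝ)
    (F : Set (𝓞 K)[X]), 0 ≤ C → 0 ≤ x → Monotone d → δ ≠ 0 → (∀ f ∈ F, Irreducible (fk K f)) →
    (PPr (9 * C) x D y δ d).Finite →
    (PFr C x D y δ F d).Finite ∧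
    (PFr C x D y δ F d).ncard * (UUn K d).ncard ≤ (PPr (9 * C) x D y δ d).ncard

/-- RCNT: the final bound (as NCNT; NPT, NAD, NRO for the data with empty `T`). -/
def RCNTStmt : Prop :=
  NPTStmt → NUUStmt → NADStmt → NROStmt → NSUStmt → NFIStmt → RPMStmt → RCOStmt →
  ∀ (K : Type) [Field K] [NumberField K] (C : ℝ), 1 ≤ C → ∃ c : ℝ, 0 < c ∧ RCNc K C c

/-- BADR: the first moment, from KEY, the count, and the lower bound for the size of the family.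
(`x = Y (mN)^(1/n)`.) -/
def BADRStmt : Prop :=
  NSTRStmt → ∀ (K : Type) [Field K] [NumberField K],
    (∀ C : ℝ, 1 ≤ C → ∃ c : ℝ, 0 < c ∧ RCNc K C c) →
    (∃ B : ℝ, 1 ≤ B ∧ BalN K B ∧ ∃ B₀ : ℝ, ∀ B' : ℝ, B₀ ≤ B' → KeyYN K B B') →
    (∃ c : ℝ, FamLN K c) →
    (∀ (D : DatN K) (Y : ℕ), D.Ok → ∀ f ∈ FamN D Y, Irreducible (fk K f)) →
    ∀ T' : Finset (HeightOneSpectrum (𝓞 K)), ∃ C b : ℕ, AvN T' C b

end Pool.PRN
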